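import Pool.Agent.H14.TOW.Targets

/-! BSA: the place is trivial on a subfield of transcendence degree at most two -/

set_option autoImplicit false

open MvPolynomial Pool.Agent.H14.TOW

namespace Pool.Agent.H41.TOW

/-- an element which is algebraic over an algebraically closed field -/
theorem alg_mem {k κ : Type} [Field k] [IsAlgClosed k] [Field κ] [Algebra k κ] (x : κ)
    (h : IsAlgebraic k x) : ∃ c : k, algebraMap k κ c = x := by
  have h1 : (minpoly k x).degree = 1 :=
    IsAlgClosed.degree_eq_one_of_irreducible k (minpoly.irreducible h.isIntegral)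
  exact minpoly.degree_eq_one_iff.1 h1

/-- the transcendence degree is finite -/
theorem trdeg_le_two {k K : Type} [Field k] [Field K] [Algebra k K] (E : IntermediateField k K)
    (h : ∀ u : Fin 3 → K, (∀ i, u i ∈ E) → ¬ AlgebraicIndependent k u) :
    ∃ n : ℕ, n ≤ 2 ∧ Algebra.trdeg k E = n := by
  have h1 : Algebra.trdeg k E ≤ ((2 : ℕ) : Cardinal) := by
    unfold Algebra.trdeg
    refine ciSup_le' fun s => ?_
    by_contra hs
    rw [not_le] at hs
    have h3 : ((3 : ℕ) : Cardinal) ≤ Cardinal.mk (s : Set E) := by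
      have := Order.succ_le_of_lt hs
      rw [← Cardinal.nat_succ] at this
      simpa using this
    have h4 : Cardinal.lift (Cardinal.mk (Fin 3)) ≤ Cardinal.mk (s : Set E) := by
      simpa using h3
    rw [Cardinal.lift_id, Cardinal.le_def] at h4
    obtain ⟨f⟩ := h4
    refine h (fun i => ((f i : E) : K)) (fun i => (f i : E).2) ?_
    have h5 : AlgebraicIndependent k (fun i : Fin 3 => ((f i : E))) :=
      AlgebraicIndependent.comp s.2 f f.injective
    exact h5.map' (f := E.val) E.val.injective
  obtain ⟨n, hn⟩ := Cardinal.lt_aleph0.1 (h1.trans_lt (Cardinal.natCast_lt_aleph0))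
  refine ⟨n, ?_, hn⟩
  rw [hn] at h1
  exact_mod_cast h1

theorem pf_BSA (h1 : T_INX) (h2 : T_RST) (h3 : T_RVR) (h4 : T_FGI) : T_BSA := by
  classical
  intro k K _ _ _ _ _ σ E σE hE hF hN hu e γ hI hS
  obtain ⟨n, hn2, hn⟩ := trdeg_le_two E hu
  have hFE : Fgn k E := h4 k K hF E
  have hNE : Nfb σE := by
    intro a ha
    have h5 : σ (a : K) = a := by rw [← hE a, ha]
    obtain ⟨c, hc⟩ := hN _ h5
    exact ⟨c, Subtype.ext (by rw [hc]; rfl)⟩
  -- transfer of the conclusion
  have key : ∀ (j : ℕ) (u : Fin j → E), n ≤ j + 1 → ∃ A : Finset E, (0 : E) ∉ A ∧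
      ∀ (κ : Type) [Field κ] [Algebra k κ] (O : Subalgebra k K) (ρ : O →ₐ[k] κ)
        (τ : κ →ₐ[k] κ), Plc σ O ρ τ → (∀ a ∈ A, Uni O ρ (a : K)) →
        Ind τ (fun i => rv O ρ (γ i : K)) →
        AlgebraicIndependent k (fun i => rv O ρ (u i : K)) →
        ∀ a ∈ E, a ≠ 0 → Uni O ρ a := by
    intro j u hj
    obtain ⟨A, hA0, hA⟩ := h1 k E σE hFE hNE n e j γ u hn hI hS hj
    refine ⟨A, hA0, ?_⟩
    intro κ _ _ O ρ τ hP hU hInd hAlg a haE ha0
    obtain ⟨OE, ρE, hPE, hrv⟩ := h2 k K κ σ O ρ τ E σE hE hP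
    have hUE : ∀ b : E, Uni OE ρE b ↔ Uni O ρ (b : K) := by
      intro b
      unfold Uni
      rw [(hrv b).1, (hrv b).2]
    have hconv : ∀ b : E, rv OE ρE b = rv O ρ (b : K) := fun b => (hrv b).2
    have h6 := hA κ OE ρE τ hPE (fun b hb => (hUE b).2 (hU b hb))
      (by simpa only [hconv] using hInd) (by simpa only [hconv] using hAlg)
      ⟨a, haE⟩ (fun h0 => ha0 (congrArg Subtype.val h0))
    exact (hUE ⟨a, haE⟩).1 h6
  rcases Nat.lt_or_ge 1 n with hn1 | hn1
  · -- transcendence degree two
    have hex : ∃ a : E, σE a ≠ a := by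
      by_contra hcon
      push Not at hcon
      have halg : Algebra.IsAlgebraic k E := by
        refine ⟨fun a => ?_⟩
        obtain ⟨c, hc⟩ := hNE a (hcon a)
        rw [hc]
        exact isAlgebraic_algebraMap c
      have h7 : Algebra.trdeg k E = 0 := trdeg_eq_zero
      rw [hn] at h7
      have : n = 0 := by exact_mod_cast h7
      omega
    obtain ⟨a, ha⟩ := hex
    obtain ⟨A, hA0, hA⟩ := key 1 (fun _ => a) (by omega)
    have ha0 : a ≠ 0 := by
      rintro rfl
      exact ha (map_zero σE)
    have hsa0 : σE a ≠ 0 := by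
      intro h0
      exact ha0 ((map_eq_zero σE).1 h0)
    refine ⟨(A.image fun b : E => (b : K)) ∪ {(a : K), σ (a : K), σ (a : K) - a}, ?_, ?_⟩
    · rw [Finset.mem_union, not_or]
      constructor
      · rw [Finset.mem_image]
        rintro ⟨b, hb, hb0⟩
        have : b = 0 := Subtype.ext (by simpa using hb0)
        rw [this] at hb
        exact hA0 hb
      · simp only [Finset.mem_insert, Finset.mem_singleton, not_or]
        refine ⟨?_, ?_, ?_⟩
        · intro h0
          exact ha0 (Subtype.ext (by simpa using h0.symm))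
        · intro h0
          rw [← hE a] at h0
          exact hsa0 (Subtype.ext (by simpa using h0.symm))
        · intro h0
          rw [← hE a] at h0
          exact ha (Subtype.ext (sub_eq_zero.1 h0.symm))
    · intro κ _ _ O ρ τ hP hU hInd
      have hUA : ∀ b ∈ A, Uni O ρ (b : K) := fun b hb =>
        hU _ (Finset.mem_union_left _ (Finset.mem_image_of_mem _ hb))
      by_cases htr : AlgebraicIndependent k (fun _ : Fin 1 => rv O ρ (a : K))
      · exact hA κ O ρ τ hP hUA hInd htr
      · exfalso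
        have h8 : IsAlgebraic k (rv O ρ (a : K)) := by
          by_contra hcon
          exact htr (algebraicIndependent_unique_type_iff.2 hcon)
        obtain ⟨c, hc⟩ := alg_mem _ h8
        have haU : Uni O ρ (a : K) := hU _ (Finset.mem_union_right _ (by simp))
        have hdU : Uni O ρ (σ (a : K) - a) := hU _ (Finset.mem_union_right _ (by simp))
        obtain ⟨hs1, hs2⟩ := hP.stab _ haU.1
        have h9 : rv O ρ (σ (a : K)) = rv O ρ (a : K) := by
          rw [hs2, ← hc, AlgHom.commutes]
        obtain ⟨-, h10, -⟩ := h3 k K κ σ O ρ τ hP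
        obtain ⟨-, -, -, h11⟩ := h10 _ _ hs1 haU.1
        exact hdU.2 (by rw [h11, h9, sub_self])
  · obtain ⟨A, hA0, hA⟩ := key 0 (fun i => i.elim0) (by omega)
    refine ⟨A.image fun b : E => (b : K), ?_, ?_⟩
    · rw [Finset.mem_image]
      rintro ⟨b, hb, hb0⟩
      have : b = 0 := Subtype.ext (by simpa using hb0)
      rw [this] at hb
      exact hA0 hb
    · intro κ _ _ O ρ τ hP hU hInd
      refine hA κ O ρ τ hP (fun b hb => hU _ (Finset.mem_image_of_mem _ hb)) hInd ?_
      rw [algebraicIndependent_empty_type_iff]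
      exact (algebraMap k κ).injective

end Pool.Agent.H41.TOW
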